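import Pool.Agent.Work.MP_2b7bfc_cu.Final

/-!
# The symbols of units do not generate the `θ`-part of `K_2(ℤ[ζ_{Np}, 1/Np]) ⊗ ℤ_p`

`p = 3`, `N = 44452 = 4 * 11113`, `r = 1`.
-/

open Pool.CU

namespace Pool.Agent.Results.MP_2b7bfc_nt.SymbolsOfUnits

instance isCyclotomicExtension :
    IsCyclotomicExtension {44452 * 3} ℚ (CyclotomicField (44452 * 3) ℚ) :=
  CyclotomicField.isCyclotomicExtension (44452 * 3) ℚ

theorem result : ∃ θ : DirichletCharacter (AlgebraicClosure ℚ_[3]) (44452 * 3),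
    θ.IsPrimitive ∧ θ.Even ∧ ¬ TrivialFrob θ ∧
      ¬ GeneratedBySymbols (CyclotomicField (44452 * 3) ℚ) θ := by
  obtain ⟨θ, h1, h2, h3, h4⟩ := all_main
  exact ⟨θ, h1, h2, h3, h4 (CyclotomicField (44452 * 3) ℚ)⟩

end Pool.Agent.Results.MP_2b7bfc_nt.SymbolsOfUnits
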